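import Pool.Agent.H681R3.MR.Bridge

/-!
# MP_954c34_an: half-Hölder continuity does not imply maximal regularity for divergence form operators

The definitions used in the statement are in `Pool/Agent/H681R3/MR/Stmt.lean`.
-/

open MeasureTheory Set Filter Topology
open Pool.Agent.H681R3.MR.Stmt

namespace Pool.Agent.Results.MP_954c34_an.HalfHolderFails

/-- The answer to Q1 is: yes, there are such coefficients, already in dimension `n = 1`. There are a
bounded open set `Ω ⊆ ℝ¹` (an interval), a closed `D ⊆ ∂Ω` and a continuous, real-valued coefficient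
`A(t,x)` such that for every `T > 0` the coefficient is uniformly elliptic and bounded on
`[0,T] × Ω`, `‖𝔄(t) - 𝔄(s)‖_{V → V*} ≤ C |t - s|^{1/2}` on `[0,T]`, and the form does not have
maximal regularity in `H = L²(Ω)` on `(0,T)`. -/
theorem result : ∃ (Ω D : Set (E 1)) (A : ℝ → E 1 → Matrix (Fin 1) (Fin 1) ℂ),
    IsOpen Ω ∧ Bornology.IsBounded Ω ∧ Convex ℝ Ω ∧ IsClosed D ∧ D ⊆ frontier Ω ∧
    Continuous (fun p : ℝ × E 1 => A p.1 p.2) ∧ (∀ t x i j, (A t x i j).im = 0) ∧
    ∀ T : ℝ, 0 < T → IsElliptic T Ω A ∧ HalfHolder T Ω D A ∧ ¬ MaximalRegularity T Ω D A := by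
  refine ⟨Pool.Agent.H681R3.MR.Om, ∅, Pool.Agent.H681R3.MR.Aco, Pool.Agent.H681R3.MR.isOpen_Om,
    Metric.isBounded_ball.subset Pool.Agent.H681R3.MR.Om_subset, ?_, isClosed_empty,
    empty_subset _, ?_, fun t x i j => ?_, fun T hT => ?_⟩
  · intro x hx y hy a b ha hb hab
    exact (convex_Ioo (0 : ℝ) Real.pi) hx hy ha hb hab
  · have := Pool.Agent.H681R3.MR.aS_cont
    refine continuous_pi fun i => continuous_pi fun j => ?_
    unfold Pool.Agent.H681R3.MR.Aco
    fun_prop
  · simp [Pool.Agent.H681R3.MR.Aco]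
  · obtain ⟨h1, h2, h3⟩ := (Pool.Agent.H681R3.MR.main T hT).2
    exact ⟨(Pool.Agent.H681R3.MR.Bridge.ell T _ _).1 h1,
      (Pool.Agent.H681R3.MR.Bridge.hold T _ _ _).1 h2,
      fun h => h3 ((Pool.Agent.H681R3.MR.Bridge.mr T _ _ _).2 h)⟩

end Pool.Agent.Results.MP_954c34_an.HalfHolderFails
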